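import Mathlib

set_option autoImplicit false

/-! Borel-Cantelli for Hausdorff measures, and the count of cubes. -/

namespace Pool.Agent.Q10.TC

open MeasureTheory Filter Set ENNReal NNReal Topology Metric

theorem bc {X ι : Type*} [EMetricSpace X] [MeasurableSpace X] [BorelSpace X] [Countable ι]
    {s : ℝ} (hs : 0 < s) (t : ι → Set X) (r : ι → ℝ≥0∞) (hr : ∀ i, ediam (t i) ≤ r i)
    (hsum : ∑' i, r i ^ s ≠ ∞) :
    μH[s] {x | {i | x ∈ t i}.Infinite} = 0 := by
  classical
  set ε : Finset ι → ℝ≥0∞ := fun F => ∑' i : {i // i ∉ F}, r i ^ s with hε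
  have h0 : Tendsto ε atTop (𝓝 0) := ENNReal.tendsto_tsum_compl_atTop_zero hsum
  have h1 : Tendsto (fun F => ε F ^ (1 / s)) atTop (𝓝 0) := by
    have h2 : Tendsto (fun x : ℝ≥0∞ => x ^ (1 / s)) (𝓝 0) (𝓝 (0 ^ (1 / s))) :=
      (ENNReal.continuous_rpow_const).tendsto 0
    rw [ENNReal.zero_rpow_of_pos (by positivity)] at h2
    exact h2.comp h0
  have hle : μH[s] {x | {i | x ∈ t i}.Infinite} ≤
      liminf (fun F : Finset ι => ∑' i : {i // i ∉ F}, ediam (t i) ^ s) atTop := by
    refine Measure.hausdorffMeasure_le_liminf_tsum s _ (fun F => ε F ^ (1 / s)) h1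
      (fun F (i : {i // i ∉ F}) => t i) ?_ ?_
    · refine Eventually.of_forall fun F i => ?_
      refine (hr i).trans ?_
      have h3 : r i ^ s ≤ ε F := ENNReal.le_tsum (f := fun i : {i // i ∉ F} => r i ^ s) i
      calc r (i : ι) = (r i ^ s) ^ (1 / s) := by
            rw [← ENNReal.rpow_mul, mul_one_div_cancel hs.ne', ENNReal.rpow_one]
        _ ≤ ε F ^ (1 / s) := by gcongr
    · refine Eventually.of_forall fun F x hx => ?_
      obtain ⟨i, hi, hiF⟩ := Set.Infinite.exists_notMem_finset hx F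
      exact mem_iUnion.2 ⟨⟨i, hiF⟩, hi⟩
  refine le_antisymm (hle.trans ?_) bot_le
  have h4 : liminf (fun F : Finset ι => ∑' i : {i // i ∉ F}, ediam (t i) ^ s) atTop ≤
      liminf ε atTop := by
    refine liminf_le_liminf (Eventually.of_forall fun F => ?_)
    exact ENNReal.tsum_le_tsum fun i => ENNReal.rpow_le_rpow (hr i) hs.le
  rw [h0.liminf_eq] at h4
  exact h4

end Pool.Agent.Q10.TC
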