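import Pool.Agent.Q10.TC.BC

set_option autoImplicit false

/-! Points which lie in infinitely many boxes. -/

namespace Pool.Agent.Q10.TC

open MeasureTheory Filter Set ENNReal NNReal Topology Metric

variable {n : ℕ}

/-- the cubes of side `r` which may meet a box -/
noncomputable def cubes (c ρ : Fin n → ℝ) (r : ℝ) (K : ℝ) : Finset (Fin n → ℤ) :=
  Fintype.piFinset fun j => Finset.Icc ⌊(c j - K * ρ j) / r⌋ ⌊(c j + K * ρ j) / r⌋

theorem card_cubes (c ρ : Fin n → ℝ) (r K : ℝ) (hr : 0 < r) (hK : 0 ≤ K) (hρ : ∀ j, r ≤ ρ j) :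
    ((cubes c ρ r K).card : ℝ) ≤ (2 * K + 2) ^ n * ∏ j, ρ j / r := by
  rw [cubes, Fintype.card_piFinset]
  push_cast
  have h1 : ∀ j, ((Finset.Icc ⌊(c j - K * ρ j) / r⌋ ⌊(c j + K * ρ j) / r⌋).card : ℝ) ≤
      (2 * K + 2) * (ρ j / r) := by
    intro j
    have hρ0 : 0 < ρ j := hr.trans_le (hρ j)
    have h2 : 1 ≤ ρ j / r := (one_le_div hr).2 (hρ j)
    have h3 : ⌊(c j - K * ρ j) / r⌋ ≤ ⌊(c j + K * ρ j) / r⌋ := by
      refine Int.floor_le_floor ?_
      have : 0 ≤ K * ρ j := by positivity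
      gcongr
      linarith
    rw [Int.card_Icc]
    have h4 : (((⌊(c j + K * ρ j) / r⌋ + 1 - ⌊(c j - K * ρ j) / r⌋).toNat : ℕ) : ℝ) =
        (⌊(c j + K * ρ j) / r⌋ : ℝ) + 1 - ⌊(c j - K * ρ j) / r⌋ := by
      have h5 : ((⌊(c j + K * ρ j) / r⌋ + 1 - ⌊(c j - K * ρ j) / r⌋).toNat : ℤ) =
        ⌊(c j + K * ρ j) / r⌋ + 1 - ⌊(c j - K * ρ j) / r⌋ := Int.toNat_of_nonneg (by omega)
      exact_mod_cast congrArg (fun z : ℤ => (z : ℝ)) h5
    rw [h4]
    have h6 := Int.floor_le ((c j + K * ρ j) / r)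
    have h7 := Int.lt_floor_add_one ((c j - K * ρ j) / r)
    have h8 : (c j + K * ρ j) / r - (c j - K * ρ j) / r = 2 * K * (ρ j / r) := by
      field_simp; ring
    nlinarith
  calc ∏ j, ((Finset.Icc ⌊(c j - K * ρ j) / r⌋ ⌊(c j + K * ρ j) / r⌋).card : ℝ)
      ≤ ∏ j : Fin n, (2 * K + 2) * (ρ j / r) :=
        Finset.prod_le_prod (fun j _ => Nat.cast_nonneg _) (fun j _ => h1 j)
    _ = (2 * K + 2) ^ n * ∏ j, ρ j / r := by
        rw [Finset.prod_mul_distrib, Finset.prod_const, Finset.card_univ, Fintype.card_fin]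

theorem boxes {A : Type*} [Countable A] (c ρ : A → Fin n → ℝ) (r : A → ℝ) (hr : ∀ a, 0 < r a)
    (hρ : ∀ a j, r a ≤ ρ a j) {s : ℝ} (hs : 0 < s) (K : ℝ) (hK : 0 ≤ K)
    (hsum : ∑' a, ENNReal.ofReal ((∏ j, ρ a j / r a) * r a ^ s) ≠ ∞) :
    μH[s] {α : Fin n → ℝ | {a | ∀ j, |α j - c a j| ≤ K * ρ a j}.Infinite} = 0 := by
  classical
  set ι := Σ a : A, {v : Fin n → ℤ // v ∈ cubes (c a) (ρ a) (r a) K} with hι
  set t : ι → Set (Fin n → ℝ) := fun i => {α | ∀ j, ⌊α j / r i.1⌋ = i.2.1 j} with ht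
  have h1 : ∀ i, ediam (t i) ≤ ENNReal.ofReal (r i.1) := by
    intro i
    refine ediam_le fun x hx y hy => ?_
    rw [edist_pi_le_iff]
    intro j
    rw [edist_dist, Real.dist_eq]
    refine ENNReal.ofReal_le_ofReal ?_
    have h2 : |x j / r i.1 - y j / r i.1| < 1 :=
      Int.abs_sub_lt_one_of_floor_eq_floor ((hx j).trans (hy j).symm)
    have h2' : |(x j - y j) / r i.1| < 1 := by
      have e : (x j - y j) / r i.1 = x j / r i.1 - y j / r i.1 := by ring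
      rw [e]; exact h2
    rw [abs_div, abs_of_pos (hr i.1), div_lt_one (hr i.1)] at h2'
    exact h2'.le
  have h3 : ∑' i : ι, (ENNReal.ofReal (r i.1)) ^ s ≠ ∞ := by
    rw [ENNReal.tsum_sigma (f := fun a (_ : {v : Fin n → ℤ // v ∈ cubes (c a) (ρ a) (r a) K}) =>
      (ENNReal.ofReal (r a)) ^ s)]
    refine ne_top_of_le_ne_top (b := ENNReal.ofReal ((2 * K + 2) ^ n) *
      ∑' a, ENNReal.ofReal ((∏ j, ρ a j / r a) * r a ^ s))
      (ENNReal.mul_ne_top ENNReal.ofReal_ne_top hsum) ?_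
    rw [← ENNReal.tsum_mul_left]
    refine ENNReal.tsum_le_tsum fun a => ?_
    rw [tsum_fintype, Finset.sum_const, Finset.card_univ, Fintype.card_coe, nsmul_eq_mul,
      ENNReal.ofReal_rpow_of_pos (hr a), ← ENNReal.ofReal_natCast, ← ENNReal.ofReal_mul (by positivity),
      ← ENNReal.ofReal_mul (by positivity)]
    refine ENNReal.ofReal_le_ofReal ?_
    rw [← mul_assoc]
    have h4 := Real.rpow_pos_of_pos (hr a) s
    exact mul_le_mul_of_nonneg_right (card_cubes (c a) (ρ a) (r a) K (hr a) hK (hρ a)) h4.le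
  refine measure_mono_null ?_ (bc hs t _ h1 h3)
  intro α hα hfin
  refine hα ((Set.Finite.image Sigma.fst hfin).subset ?_)
  intro a ha
  have hv : (fun j => ⌊α j / r a⌋) ∈ cubes (c a) (ρ a) (r a) K := by
    rw [cubes, Fintype.mem_piFinset]
    intro j
    have h5 := abs_le.1 (ha j)
    rw [Finset.mem_Icc]
    have hra := hr a
    constructor
    · exact Int.floor_le_floor (by gcongr; linarith)
    · exact Int.floor_le_floor (by gcongr; linarith)
  exact ⟨⟨a, ⟨_, hv⟩⟩, fun j => rfl, rfl⟩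

end Pool.Agent.Q10.TC
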