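import Pool.Agent.Q10.TC.Boxes
import Pool.Agent.Results.MP_90c6bd_nt.SquareRootRationals

set_option autoImplicit false

/-! Tuples of rationals near a real point: the general statement for a family of tuples with few
members of bounded height. -/

namespace Pool.Agent.Q10.TC

open MeasureTheory Filter Set ENNReal NNReal Topology Metric
open Pool.Agent.Results.MP_90c6bd_nt.SquareRootRationals (hgt hgt_pos)

variable {n : ℕ}

/-- the product of the heights -/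
def H (a : Fin n → ℚ) : ℕ := ∏ i, hgt (a i)

theorem H_pos (a : Fin n → ℚ) : 1 ≤ H a := Finset.prod_pos fun _ _ => hgt_pos _

theorem hgt_le_H (a : Fin n → ℚ) (j : Fin n) : hgt (a j) ≤ H a :=
  Nat.le_of_dvd (H_pos a) (Finset.dvd_prod_of_mem (fun i => hgt (a i)) (Finset.mem_univ j))

/-- the number of members of `A` with product of heights at most `2 ^ k` is at most
`C 2 ^ (k (v + ε))` -/
def FewIn (A : Set (Fin n → ℚ)) (v : ℝ) : Prop := ∀ ε : ℝ, 0 < ε →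
  ∃ C : ℝ, 0 < C ∧ ∀ k : ℕ, {a : Fin n → ℚ | a ∈ A ∧ H a ≤ 2 ^ k}.Finite ∧
      (({a : Fin n → ℚ | a ∈ A ∧ H a ≤ 2 ^ k}.ncard : ℕ) : ℝ) ≤ C * (2 : ℝ) ^ ((k : ℝ) * (v + ε))

theorem sum_bad (A : Set (Fin n → ℚ)) (v : ℝ) (hv : 0 ≤ v) (hA : FewIn A v) (θ : ℝ) (hθ : v < θ) :
    ∑' a : A, ENNReal.ofReal ((H (a : Fin n → ℚ) : ℝ) ^ (-θ)) ≠ ∞ := by
  classical
  set ε : ℝ := (θ - v) / 2 with hε
  have hε0 : 0 < ε := by rw [hε]; linarith
  obtain ⟨C, hC0, hC⟩ := hA ε hε0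
  set D : ℕ → Set (Fin n → ℚ) := fun k => {a | a ∈ A ∧ 2 ^ k ≤ H a ∧ H a ≤ 2 ^ (k + 1)} with hD
  have hθ0 : 0 < θ := by linarith
  have hsub : A ⊆ ⋃ k, D k := by
    intro a ha
    refine mem_iUnion.2 ⟨Nat.log 2 (H a), ha, Nat.pow_log_le_self 2 (by have := H_pos a; omega), ?_⟩
    exact (Nat.lt_pow_succ_log_self (by norm_num) _).le
  set f : (Fin n → ℚ) → ℝ≥0∞ := fun a => ENNReal.ofReal ((H a : ℝ) ^ (-θ)) with hf
  set q : ℝ := (2 : ℝ) ^ (v + ε - θ) with hq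
  have hq0 : 0 < q := by positivity
  have hq1 : q < 1 := Real.rpow_lt_one_of_one_lt_of_neg (by norm_num) (by rw [hε]; linarith)
  have hk : ∀ k, ∑' a : D k, f a ≤
      ENNReal.ofReal (C * (2 : ℝ) ^ (v + ε) * q ^ k) := by
    intro k
    have hDsub : D k ⊆ {a : Fin n → ℚ | a ∈ A ∧ H a ≤ 2 ^ (k + 1)} := fun a ha => ⟨ha.1, ha.2.2⟩
    obtain ⟨hfin, hcard⟩ := hC (k + 1)
    have hDfin : (D k).Finite := hfin.subset hDsub
    have h1 : ∑' a : D k, f a ≤ ∑' a : (hDfin.toFinset : Set (Fin n → ℚ)), f a :=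
      ENNReal.tsum_mono_subtype f (by simp)
    rw [Finset.tsum_subtype'] at h1
    refine h1.trans ?_
    have h2 : ∀ a ∈ hDfin.toFinset, f a ≤ ENNReal.ofReal ((2 : ℝ) ^ (-(k : ℝ) * θ)) := by
      intro a ha
      have h3 := (hDfin.mem_toFinset.1 ha).2.1
      refine ENNReal.ofReal_le_ofReal ?_
      have h4 : ((2 : ℝ) ^ k) ≤ (H a : ℝ) := by exact_mod_cast h3
      have h5 := Real.rpow_le_rpow_of_nonpos (by positivity) h4 (show -θ ≤ 0 by linarith)
      refine h5.trans (le_of_eq ?_)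
      rw [← Real.rpow_natCast, ← Real.rpow_mul (by norm_num)]
      congr 1
      ring
    refine (Finset.sum_le_card_nsmul _ _ _ h2).trans ?_
    rw [nsmul_eq_mul, ← ENNReal.ofReal_natCast, ← ENNReal.ofReal_mul (Nat.cast_nonneg _)]
    refine ENNReal.ofReal_le_ofReal ?_
    have h6 : ((hDfin.toFinset.card : ℕ) : ℝ) ≤
        C * (2 : ℝ) ^ (((k + 1 : ℕ) : ℝ) * (v + ε)) := by
      refine le_trans ?_ hcard
      rw [← Set.ncard_eq_toFinset_card _ hDfin]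
      exact_mod_cast Set.ncard_le_ncard hDsub hfin
    calc ((hDfin.toFinset.card : ℕ) : ℝ) * (2 : ℝ) ^ (-(k : ℝ) * θ)
        ≤ C * (2 : ℝ) ^ (((k + 1 : ℕ) : ℝ) * (v + ε)) * (2 : ℝ) ^ (-(k : ℝ) * θ) := by
          gcongr
      _ = C * (2 : ℝ) ^ (v + ε) * q ^ k := by
          rw [hq, ← Real.rpow_natCast ((2 : ℝ) ^ (v + ε - θ)), ← Real.rpow_mul (by norm_num),
            mul_assoc, mul_assoc, ← Real.rpow_add (by norm_num), ← Real.rpow_add (by norm_num)]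
          congr 2
          push_cast
          ring
  refine ne_top_of_le_ne_top ?_ ((ENNReal.tsum_mono_subtype f hsub).trans
    ((ENNReal.tsum_iUnion_le_tsum f D).trans (ENNReal.tsum_le_tsum hk)))
  exact ((summable_geometric_of_lt_one hq0.le hq1).mul_left _).tsum_ofReal_ne_top

theorem weight (t s : ℝ) (a : Fin n → ℚ) :
    (∏ j, (hgt (a j) : ℝ) ^ (-t) / (H a : ℝ) ^ (-t)) * ((H a : ℝ) ^ (-t)) ^ s =
      (H a : ℝ) ^ (-(t * (s - (n - 1)))) := by
  have hH : (0 : ℝ) < H a := by exact_mod_cast H_pos a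
  rw [Finset.prod_div_distrib, Finset.prod_const, Finset.card_univ, Fintype.card_fin]
  have h3 : ∏ j, (hgt (a j) : ℝ) ^ (-t) = (H a : ℝ) ^ (-t) := by
    rw [Real.finset_prod_rpow _ _ (fun i _ => Nat.cast_nonneg _)]
    congr 1
    rw [H]
    push_cast
    rfl
  rw [h3, ← Real.rpow_natCast ((H a : ℝ) ^ (-t)), ← Real.rpow_mul hH.le, ← Real.rpow_mul hH.le,
    ← Real.rpow_sub hH, ← Real.rpow_add hH]
  congr 1
  ring

theorem null (hn : 1 ≤ n) (A : Set (Fin n → ℚ)) (v : ℝ) (hv : 0 ≤ v) (hA : FewIn A v)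
    (t s K : ℝ) (ht : 0 < t) (hs : (n : ℝ) - 1 + v / t < s) (hK : 0 ≤ K) :
    μH[s] {α : Fin n → ℝ | {a : A |
      ∀ j, |α j - (a.1 j : ℝ)| ≤ K * (hgt (a.1 j) : ℝ) ^ (-t)}.Infinite} = 0 := by
  have hn' : (1 : ℝ) ≤ n := by exact_mod_cast hn
  have h0 : 0 ≤ v / t := by positivity
  have hs0 : 0 < s := by linarith
  have hθ : v < t * (s - (n - 1)) := by
    have h2 : v / t < s - (n - 1) := by linarith
    rw [div_lt_iff₀ ht] at h2
    linarith
  have h1 : ∀ a : A, 0 < (H a.1 : ℝ) ^ (-t) := by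
    intro a
    have : (0 : ℝ) < H a.1 := by exact_mod_cast H_pos a.1
    exact Real.rpow_pos_of_pos this _
  have h2 : ∀ (a : A) (j : Fin n),
      (H a.1 : ℝ) ^ (-t) ≤ (hgt (a.1 j) : ℝ) ^ (-t) := by
    intro a j
    have h1 : (0 : ℝ) < hgt (a.1 j) := by exact_mod_cast hgt_pos _
    exact Real.rpow_le_rpow_of_nonpos h1 (by exact_mod_cast hgt_le_H a.1 j) (by linarith)
  have h3 : ∑' a : A, ENNReal.ofReal ((∏ j, (hgt (a.1 j) : ℝ) ^ (-t) / (H a.1 : ℝ) ^ (-t)) *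
        ((H a.1 : ℝ) ^ (-t)) ^ s) ≠ ∞ := by
    have e : ∀ a : A,
        ENNReal.ofReal ((∏ j, (hgt (a.1 j) : ℝ) ^ (-t) / (H a.1 : ℝ) ^ (-t)) *
        ((H a.1 : ℝ) ^ (-t)) ^ s) = ENNReal.ofReal ((H a.1 : ℝ) ^ (-(t * (s - (n - 1))))) :=
      fun a => by rw [weight t s a.1]
    rw [tsum_congr e]
    exact sum_bad A v hv hA _ hθ
  exact boxes (A := A) (fun a j => (a.1 j : ℝ))
    (fun a j => (hgt (a.1 j) : ℝ) ^ (-t)) (fun a => (H a.1 : ℝ) ^ (-t)) h1 h2 hs0 K hK h3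

/-- `a` is near `α`: `|α_j - a_j| ≤ K q_j ^ (-t)` with `q_j` the denominator of `a_j` -/
def Near (K t : ℝ) (α : Fin n → ℝ) (a : Fin n → ℚ) : Prop :=
  ∀ j, |α j - (a j : ℝ)| ≤ K * ((a j).den : ℝ) ^ (-t)

theorem near_hgt {K t : ℝ} (hK : 0 ≤ K) (ht : 0 < t) (α : Fin n → ℝ) (a : Fin n → ℚ)
    (h : Near K t α a) {N : ℕ} (hN : ∀ j, |α j| + K + 1 ≤ N) (j : Fin n) :
    |α j - (a j : ℝ)| ≤ (K * (N : ℝ) ^ t) * (hgt (a j) : ℝ) ^ (-t) := by
  have hj := h j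
  have hd : (1 : ℝ) ≤ (a j).den := by exact_mod_cast (a j).den_pos
  have hd0 : (0 : ℝ) < (a j).den := by linarith
  have h1 : ((a j).den : ℝ) ^ (-t) ≤ 1 :=
    Real.rpow_le_one_of_one_le_of_nonpos hd (by linarith)
  have hKd : K * ((a j).den : ℝ) ^ (-t) ≤ K := by nlinarith
  have h2 : |(a j : ℝ)| ≤ |α j| + K := by
    have := abs_sub_abs_le_abs_sub (a j : ℝ) (α j)
    rw [abs_sub_comm] at this
    linarith
  have hN1 : (1 : ℝ) ≤ N := by
    have := hN j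
    have := abs_nonneg (α j)
    linarith
  have h3 : (hgt (a j) : ℝ) ≤ N * (a j).den := by
    have h4 : ((a j).num.natAbs : ℝ) = |(a j : ℝ)| * (a j).den := by
      rw [Nat.cast_natAbs, Int.cast_abs]
      have h5 : ((a j).num : ℝ) = (a j : ℝ) * (a j).den := by
        have := Rat.mul_den_eq_num (a j)
        exact_mod_cast this.symm
      rw [h5, abs_mul, abs_of_pos hd0]
    have h6 : ((a j).num.natAbs : ℝ) ≤ N * (a j).den := by
      rw [h4]
      have := hN j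
      gcongr
      linarith
    have h7 : ((a j).den : ℝ) ≤ N * (a j).den := by nlinarith
    have h8 : (hgt (a j) : ℝ) = max ((a j).num.natAbs : ℝ) ((a j).den : ℝ) := by
      rw [hgt]
      push_cast
      rfl
    rw [h8]
    exact max_le h6 h7
  have hh : (0 : ℝ) < hgt (a j) := by exact_mod_cast hgt_pos _
  have hN0 : (0 : ℝ) < N := by linarith
  have h9 : ((a j).den : ℝ) ^ (-t) ≤ (N : ℝ) ^ t * (hgt (a j) : ℝ) ^ (-t) := by
    have h10 := Real.rpow_le_rpow_of_nonpos hh h3 (show -t ≤ 0 by linarith)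
    rw [Real.mul_rpow hN0.le hd0.le] at h10
    calc ((a j).den : ℝ) ^ (-t) = (N : ℝ) ^ t * ((N : ℝ) ^ (-t) * ((a j).den : ℝ) ^ (-t)) := by
          rw [← mul_assoc, ← Real.rpow_add hN0, add_neg_cancel, Real.rpow_zero, one_mul]
      _ ≤ _ := by gcongr
  refine hj.trans ?_
  rw [mul_assoc]
  exact mul_le_mul_of_nonneg_left h9 hK

/-- the general theorem -/
theorem master (hn : 1 ≤ n) (A : Set (Fin n → ℚ)) (v : ℝ) (hv : 0 ≤ v) (hA : FewIn A v)
    (t : ℝ) (ht : 0 < t) :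
    dimH {α : Fin n → ℝ | ¬ ∀ K : ℝ, {a : Fin n → ℚ | a ∈ A ∧ Near K t α a}.Finite} ≤
      ENNReal.ofReal ((n : ℝ) - 1 + v / t) ∧
    (v < t → ∀ᵐ α : Fin n → ℝ, ∀ K : ℝ, {a : Fin n → ℚ | a ∈ A ∧ Near K t α a}.Finite) := by
  classical
  have hn' : (1 : ℝ) ≤ n := by exact_mod_cast hn
  have h0 : 0 ≤ v / t := by positivity
  have hnull : ∀ s : ℝ, (n : ℝ) - 1 + v / t < s →
      μH[s] {α : Fin n → ℝ | ¬ ∀ K : ℝ, {a : Fin n → ℚ | a ∈ A ∧ Near K t α a}.Finite} = 0 := by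
    intro s hs
    have hun : μH[s] (⋃ K : ℕ, {α : Fin n → ℝ | {a : A |
      ∀ j, |α j - (a.1 j : ℝ)| ≤ (K : ℝ) * (hgt (a.1 j) : ℝ) ^ (-t)}.Infinite}) = 0 :=
      measure_iUnion_null fun K => null hn A v hv hA t s K ht hs (Nat.cast_nonneg _)
    refine measure_mono_null ?_ hun
    intro α hα
    rw [mem_setOf_eq, not_forall] at hα
    obtain ⟨K, hK⟩ := hα
    obtain ⟨N, hN⟩ := exists_nat_ge (∑ j, |α j| + |K| + 1)
    obtain ⟨M, hM⟩ := exists_nat_ge (|K| * (N : ℝ) ^ t)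
    refine mem_iUnion.2 ⟨M, fun hfin => hK ?_⟩
    refine (hfin.image (fun a : A => (a : Fin n → ℚ))).subset ?_
    rintro a ⟨ha, hna⟩
    refine ⟨⟨a, ha⟩, fun j => ?_, rfl⟩
    have hna' : Near |K| t α a := fun j => (hna j).trans (by
      have : (0 : ℝ) ≤ ((a j).den : ℝ) ^ (-t) := by positivity
      exact mul_le_mul_of_nonneg_right (le_abs_self K) this)
    have h1 := near_hgt (abs_nonneg K) ht α a hna' (N := N) (fun j => by
      have : |α j| ≤ ∑ j, |α j| :=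
        Finset.single_le_sum (f := fun j => |α j|) (fun j _ => abs_nonneg _) (Finset.mem_univ j)
      linarith) j
    refine h1.trans ?_
    have : (0 : ℝ) ≤ (hgt (a j) : ℝ) ^ (-t) := by positivity
    exact mul_le_mul_of_nonneg_right hM this
  constructor
  · refine ENNReal.le_of_forall_pos_le_add fun ε hε _ => ?_
    have hε' : (0 : ℝ) < ε := by exact_mod_cast hε
    have h1 := hnull ((n : ℝ) - 1 + v / t + ε) (by linarith)
    have h2 : (0 : ℝ) ≤ (n : ℝ) - 1 + v / t + ε := by linarith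
    refine (dimH_le_of_hausdorffMeasure_ne_top (d := Real.toNNReal ((n : ℝ) - 1 + v / t + ε)) ?_).trans ?_
    · rw [Real.coe_toNNReal _ h2, h1]
      exact ENNReal.zero_ne_top
    · have e : ((Real.toNNReal ((n : ℝ) - 1 + v / t + ε) : ℝ≥0) : ℝ≥0∞) =
        ENNReal.ofReal ((n : ℝ) - 1 + v / t + ε) := rfl
      rw [e, ENNReal.ofReal_add (by linarith) hε'.le, ENNReal.ofReal_coe_nnreal]
  · intro hvt
    have h1 := hnull (n : ℝ) (by
      have : v / t < 1 := (div_lt_one ht).2 hvt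
      linarith)
    have e : (μH[(n : ℝ)] : Measure (Fin n → ℝ)) = volume := by
      have := hausdorffMeasure_pi_real (ι := Fin n)
      rw [Fintype.card_fin] at this
      exact this
    rw [e] at h1
    exact h1

end Pool.Agent.Q10.TC
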