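import Pool.Agent.Q10.TC.Count

set_option autoImplicit false

/-! The count of tuples at which a linear form in logarithms is small. -/

namespace Pool.Agent.Q10.TC

open Finset
open Pool.Agent.Results.MP_90c6bd_nt.SquareRootRationals (hgt hgt_pos nd nd_inj)

variable {n m : ℕ}

/-- The sum over both halves is the linear form. -/
theorem sum_nd_real {n : ℕ} (a : Fin n → ℚ) (ha : ∀ i, 0 < a i) (b : Fin n → ℝ) :
    ∑ j, (Sum.elim b (fun i => -(b i)) j) * Real.log (nd a j) =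
      ∑ i, b i * Real.log (a i) := by
  rw [Fintype.sum_sum_type, ← sum_add_distrib]
  refine sum_congr rfl fun i _ => ?_
  simp only [nd, Sum.elim_inl, Sum.elim_inr]
  have h3 := Rat.num_pos.2 (ha i)
  have h4 : ((a i : ℚ) : ℝ) = ((a i).num.natAbs : ℝ) / ((a i).den : ℝ) := by
    have h5 : ((a i).num : ℚ) / (a i).den = a i := Rat.num_div_den (a i)
    have h6 : (((a i).num.natAbs : ℕ) : ℤ) = (a i).num := Int.natAbs_of_nonneg h3.le
    calc ((a i : ℚ) : ℝ) = (((a i).num : ℚ) / (a i).den : ℚ) := by rw [h5]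
      _ = _ := by
          push_cast
          rw [← Int.cast_natCast (a i).num.natAbs, h6]
  have h7 : (((a i).num.natAbs : ℕ) : ℝ) ≠ 0 := by
    have : (a i).num.natAbs ≠ 0 := by omega
    exact_mod_cast this
  have h8 : ((a i).den : ℝ) ≠ 0 := by exact_mod_cast (a i).den_pos.ne'
  rw [h4, Real.log_div h7 h8]
  ring

/-- tuples at which one of finitely many inhomogeneous linear forms is small -/
def Small (Y : ℕ) (T : Finset ((Fin n → ℝ) × ℝ)) : Set (Fin n → ℚ) :=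
  {a | (∀ i, 0 < a i) ∧ H a ≤ Y ∧
    ∃ p ∈ T, |(∑ i, p.1 i * Real.log (a i)) + p.2| ≤ 1 / (H a : ℝ) ^ 2}

theorem few_shift (hn : 1 ≤ n) (ε : ℝ) (hε : 0 < ε) :
    ∃ C : ℝ, 0 < C ∧ ∀ Y : ℕ, 1 ≤ Y → ∀ T : Finset ((Fin n → ℝ) × ℝ),
      (∀ p ∈ T, ∀ i, 1 ≤ |p.1 i|) → (Small Y T).Finite ∧
        ((Small Y T).ncard : ℝ) ≤ C * (T.card : ℝ) * (Y : ℝ) ^ (1 + ε) := by
  classical
  have : Nonempty (Fin n ⊕ Fin n) := ⟨Sum.inl ⟨0, hn⟩⟩
  obtain ⟨C, hC0, hC⟩ := Pool.Agent.TH201.LW.few2 (κ := Fin n ⊕ Fin n) (ε / 2) (by positivity)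
  refine ⟨C, hC0, fun Y hY T hT => ?_⟩
  have hY0 : (0 : ℝ) ≤ Y := by positivity
  set Box : Finset (Fin n ⊕ Fin n → ℕ) := Fintype.piFinset fun _ => Icc 1 (Y ^ 2) with hBox
  set β : (Fin n → ℝ) × ℝ → Fin n ⊕ Fin n → ℝ := fun p =>
    Sum.elim p.1 (fun i => -(p.1 i)) with hβ
  set S : (Fin n → ℝ) × ℝ → Finset (Fin n ⊕ Fin n → ℕ) :=
    fun p => Box.filter fun x => ∏ j, x j ≤ Y ^ 2 ∧
      |∑ j, β p j * Real.log (x j) + p.2| ≤ 1 / ∏ j, (x j : ℝ) with hS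
  have hSc : ∀ p ∈ T, ((S p).card : ℝ) ≤ C * (Y : ℝ) ^ (1 + ε) := by
    intro p hp
    have h1 := hC (Y ^ 2) (Nat.one_le_pow _ _ hY) (β p) p.2 (fun j => ?_) (S p) ?_
    · refine h1.trans (le_of_eq ?_)
      push_cast
      rw [← Real.rpow_natCast, ← Real.rpow_mul hY0]
      congr 2
      push_cast
      ring
    · rcases j with i | i
      · simpa [hβ] using hT p hp i
      · simpa [hβ] using hT p hp i
    · intro x hx
      rw [hS, mem_filter, hBox, Fintype.mem_piFinset] at hx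
      exact ⟨fun j => (mem_Icc.1 (hx.1 j)).1, hx.2.1, hx.2.2⟩
  have hmaps : ∀ a ∈ Small Y T, nd a ∈ T.biUnion S := by
    rintro a ⟨ha, haY, p, hp, hab⟩
    have hnum : ∀ i, 1 ≤ (a i).num.natAbs := fun i => by
      have := Rat.num_pos.2 (ha i)
      omega
    have hden : ∀ i, 1 ≤ (a i).den := fun i => (a i).den_pos
    have hnd1 : ∀ j, 1 ≤ nd a j := by
      rintro (i | i)
      · exact hnum i
      · exact hden i
    have hprod : ∏ j, nd a j = ∏ i, (a i).num.natAbs * (a i).den := by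
      rw [Fintype.prod_sum_type, prod_mul_distrib]
      rfl
    have hle : ∏ j, nd a j ≤ H a ^ 2 := by
      rw [hprod, H, ← prod_pow]
      refine prod_le_prod' fun i _ => ?_
      rw [sq]
      exact Nat.mul_le_mul (le_max_left _ _) (le_max_right _ _)
    have hleY : ∏ j, nd a j ≤ Y ^ 2 := hle.trans (Nat.pow_le_pow_left haY 2)
    have hpos : 0 < ∏ j, nd a j := Nat.pos_of_ne_zero (prod_ne_zero_iff.2 fun j _ => by
      have := hnd1 j
      omega)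
    rw [mem_biUnion]
    refine ⟨p, hp, ?_⟩
    rw [hS, mem_filter, hBox, Fintype.mem_piFinset]
    refine ⟨fun j => mem_Icc.2 ⟨hnd1 j, ?_⟩, hleY, ?_⟩
    · exact (Nat.le_of_dvd hpos (dvd_prod_of_mem _ (mem_univ j))).trans hleY
    · have e := sum_nd_real a ha p.1
      rw [hβ]
      rw [e]
      refine hab.trans ?_
      have h3 : (0 : ℝ) < ∏ j, (nd a j : ℝ) := by exact_mod_cast hpos
      have h4 : ∏ j, (nd a j : ℝ) ≤ (H a : ℝ) ^ 2 := by exact_mod_cast hle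
      exact one_div_le_one_div_of_le h3 h4
  have hinj : Set.InjOn nd (Small Y T) := fun a ha a' ha' h =>
    nd_inj a a' ha.1 ha'.1 h
  have hmaps' : Set.MapsTo nd (Small Y T) (↑(T.biUnion S) : Set (Fin n ⊕ Fin n → ℕ)) :=
    fun a ha => mem_coe.2 (hmaps a ha)
  refine ⟨Set.Finite.of_injOn hmaps' hinj (finite_toSet _), ?_⟩
  have h1 : (Small Y T).ncard ≤ (T.biUnion S).card := by
    rw [← Set.ncard_coe_finset]
    exact Set.ncard_le_ncard_of_injOn nd hmaps' hinj (finite_toSet _)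
  calc ((Small Y T).ncard : ℝ) ≤ ((T.biUnion S).card : ℝ) := by exact_mod_cast h1
    _ ≤ ∑ b ∈ T, ((S b).card : ℝ) := by exact_mod_cast card_biUnion_le
    _ ≤ ∑ _b ∈ T, C * (Y : ℝ) ^ (1 + ε) := sum_le_sum hSc
    _ = C * (T.card : ℝ) * (Y : ℝ) ^ (1 + ε) := by
        rw [sum_const, nsmul_eq_mul]
        ring

/-- the linear form -/
noncomputable def lin (a : Fin n → ℚ) (d : Fin m → ℚ) (b : Fin n → ℤ) (c : Fin m → ℤ) : ℝ :=
  (∑ i, (b i : ℝ) * Real.log (a i)) + ∑ i, (c i : ℝ) * Real.log (d i)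

/-- `max (1, |x|)` -/
def B1 (x : ℤ) : ℕ := max 1 x.natAbs

/-- the largest `max (1, |x|)` -/
def maxBC (b : Fin n → ℤ) (c : Fin m → ℤ) : ℕ :=
  max (univ.sup fun i => B1 (b i)) (univ.sup fun i => B1 (c i))

/-- the product of the `B_j A_j ^ 2` -/
def size (a : Fin n → ℚ) (d : Fin m → ℚ) (b : Fin n → ℤ) (c : Fin m → ℤ) : ℕ :=
  (∏ i, B1 (b i) * hgt (a i) ^ 2) * ∏ i, B1 (c i) * hgt (d i) ^ 2

/-- the linear form is at most `H(a) ^ (-2)` for some `b`, `c`, `d` of bounded size -/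
def Fails (m : ℕ) (κ lam : ℝ) (a : Fin n → ℚ) : Prop :=
  ∃ (b : Fin n → ℤ) (c : Fin m → ℤ) (d : Fin m → ℚ),
    (∀ i, b i ≠ 0 ∧ |(b i : ℝ)| ≤ (H a : ℝ) ^ κ) ∧
    (∀ i, |(c i : ℝ)| ≤ (H a : ℝ) ^ κ ∧ 0 < d i ∧ (hgt (d i) : ℝ) ≤ (H a : ℝ) ^ lam) ∧
    |lin a d b c| ≤ 1 / (H a : ℝ) ^ 2

theorem B1_pos (x : ℤ) : 0 < B1 x := lt_of_lt_of_le one_pos (le_max_left _ _)

theorem lang_of (a : Fin n → ℚ) (d : Fin m → ℚ) (b : Fin n → ℤ) (c : Fin m → ℤ)
    (h : 1 / (H a : ℝ) ^ 2 < |lin a d b c|) (η : ℝ) (hη : 0 ≤ η) :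
    (maxBC b c : ℝ) / (size a d b c : ℝ) ^ (1 + η) < |lin a d b c| := by
  refine lt_of_le_of_lt ?_ h
  have hb0 : 0 < ∏ i, B1 (b i) := prod_pos fun i _ => B1_pos _
  have hc0 : 0 < ∏ i, B1 (c i) := prod_pos fun i _ => B1_pos _
  have hd0 : 0 < ∏ i, hgt (d i) ^ 2 := prod_pos fun i _ => pow_pos (hgt_pos _) _
  have hmax : maxBC b c ≤ (∏ i, B1 (b i)) * ∏ i, B1 (c i) := by
    refine max_le (Finset.sup_le fun i _ => ?_) (Finset.sup_le fun i _ => ?_)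
    · exact (Nat.le_of_dvd hb0 (dvd_prod_of_mem (fun i => B1 (b i)) (mem_univ i))).trans
        (Nat.le_mul_of_pos_right _ hc0)
    · exact (Nat.le_of_dvd hc0 (dvd_prod_of_mem (fun i => B1 (c i)) (mem_univ i))).trans
        (Nat.le_mul_of_pos_left _ hb0)
  have hH : 0 < H a ^ 2 := pow_pos (H_pos a) _
  have hsize : size a d b c =
      ((∏ i, B1 (b i)) * ∏ i, B1 (c i)) * (H a ^ 2 * ∏ i, hgt (d i) ^ 2) := by
    rw [size, prod_mul_distrib, prod_mul_distrib, H, ← prod_pow]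
    ring
  have hge : maxBC b c * H a ^ 2 ≤ size a d b c := by
    rw [hsize]
    exact Nat.mul_le_mul hmax (Nat.le_mul_of_pos_right _ hd0)
  have hs0 : 0 < size a d b c := by
    rw [hsize]
    positivity
  have hs1 : (1 : ℝ) ≤ size a d b c := by exact_mod_cast hs0
  have h2 : (size a d b c : ℝ) ≤ (size a d b c : ℝ) ^ (1 + η) := by
    calc (size a d b c : ℝ) = (size a d b c : ℝ) ^ (1 : ℝ) := (Real.rpow_one _).symm
      _ ≤ _ := Real.rpow_le_rpow_of_exponent_le hs1 (by linarith)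
  rw [div_le_div_iff₀ (by linarith) (by exact_mod_cast hH), one_mul]
  refine le_trans ?_ h2
  exact_mod_cast hge

/-- the positive rationals of height at most `L` -/
def Rat1 (L : ℕ) : Finset ℚ := (Icc 1 L ×ˢ Icc 1 L).image fun p : ℕ × ℕ => (p.1 : ℚ) / p.2

theorem card_Rat1 (L : ℕ) : (Rat1 L).card ≤ L ^ 2 := by
  refine card_image_le.trans ?_
  rw [card_product, Nat.card_Icc]
  simp [sq]

theorem mem_Rat1 {L : ℕ} {x : ℚ} (hx : 0 < x) (h : hgt x ≤ L) : x ∈ Rat1 L := by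
  have h1 := Rat.num_pos.2 hx
  refine mem_image.2 ⟨(x.num.natAbs, x.den), ?_, ?_⟩
  · rw [mem_product, mem_Icc, mem_Icc]
    exact ⟨⟨by simp; omega, (le_max_left _ _).trans h⟩, x.den_pos, (le_max_right _ _).trans h⟩
  · have h6 : (((x.num.natAbs : ℕ) : ℤ)) = x.num := Int.natAbs_of_nonneg h1.le
    have h7 : ((x.num.natAbs : ℕ) : ℚ) = (x.num : ℚ) := by rw [← Int.cast_natCast, h6]
    show ((x.num.natAbs : ℕ) : ℚ) / x.den = x
    rw [h7]
    exact Rat.num_div_den x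

theorem count (hn : 1 ≤ n) (m : ℕ) (κ lam : ℝ) (hκ : 0 ≤ κ) (hl : 0 ≤ lam) :
    FewIn {a : Fin n → ℚ | (∀ i, 0 < a i) ∧ Fails m κ lam a} (1 + (n + m) * κ + 2 * m * lam) := by
  classical
  intro ε hε
  obtain ⟨C, hC0, hC⟩ := few_shift (n := n) hn ε hε
  refine ⟨C * (2 ^ n * 3 ^ m), by positivity, fun k => ?_⟩
  set P : ℝ := ((2 : ℝ) ^ k) ^ κ with hP
  set Q : ℝ := ((2 : ℝ) ^ k) ^ lam with hQ
  have h2k : (1 : ℝ) ≤ 2 ^ k := one_le_pow₀ (by norm_num)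
  have hP1 : 1 ≤ P := Real.one_le_rpow h2k hκ
  have hQ1 : 1 ≤ Q := Real.one_le_rpow h2k hl
  set M : ℕ := ⌊P⌋₊ with hM
  set L : ℕ := ⌊Q⌋₊ with hL
  have hMP : (M : ℝ) ≤ P := Nat.floor_le (by linarith)
  have hLQ : (L : ℝ) ≤ Q := Nat.floor_le (by linarith)
  set 𝓑 : Finset (Fin n → ℤ) := Fintype.piFinset fun _ => (Finset.Icc (-(M : ℤ)) M).erase 0
    with h𝓑
  set 𝓒 : Finset (Fin m → ℤ) := Fintype.piFinset fun _ => Finset.Icc (-(M : ℤ)) M with h𝓒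
  set 𝓓 : Finset (Fin m → ℚ) := Fintype.piFinset fun _ => Rat1 L with h𝓓
  set T : Finset ((Fin n → ℝ) × ℝ) := (𝓑 ×ˢ (𝓒 ×ˢ 𝓓)).image fun p =>
    ((fun i => (p.1 i : ℝ)), ∑ i, (p.2.1 i : ℝ) * Real.log (p.2.2 i)) with hT
  have hcast : ∀ {x : ℤ} {z : ℝ} {N : ℕ}, N = ⌊z⌋₊ → |(x : ℝ)| ≤ z → x.natAbs ≤ N := by
    intro x z N hN hx
    rw [hN]
    refine Nat.le_floor ?_
    rw [Nat.cast_natAbs, Int.cast_abs]
    exact hx
  obtain ⟨hfin, hcard⟩ := hC (2 ^ k) (Nat.one_le_pow _ _ two_pos) T (by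
    intro p hp i
    rw [hT, mem_image] at hp
    obtain ⟨q, hq, rfl⟩ := hp
    rw [mem_product, h𝓑, Fintype.mem_piFinset] at hq
    have h1 := (Finset.mem_erase.1 (hq.1 i)).1
    have h2 : (1 : ℤ) ≤ |q.1 i| := Int.one_le_abs h1
    show 1 ≤ |(q.1 i : ℝ)|
    exact_mod_cast h2)
  have hsub : {a : Fin n → ℚ | a ∈ {a : Fin n → ℚ | (∀ i, 0 < a i) ∧ Fails m κ lam a} ∧
      H a ≤ 2 ^ k} ⊆ Small (2 ^ k) T := by
    rintro a ⟨⟨h1, b, c, d, hb, hc, hab⟩, h2⟩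
    have hHk : (H a : ℝ) ≤ (2 : ℝ) ^ k := by exact_mod_cast h2
    have hHP : (H a : ℝ) ^ κ ≤ P := Real.rpow_le_rpow (Nat.cast_nonneg _) hHk hκ
    have hHQ : (H a : ℝ) ^ lam ≤ Q := Real.rpow_le_rpow (Nat.cast_nonneg _) hHk hl
    refine ⟨h1, h2, _, mem_image.2 ⟨(b, c, d), ?_, rfl⟩, ?_⟩
    · rw [mem_product, mem_product, h𝓑, h𝓒, h𝓓, Fintype.mem_piFinset, Fintype.mem_piFinset,
        Fintype.mem_piFinset]
      refine ⟨fun i => ?_, fun i => ?_, fun i => ?_⟩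
      · have := hcast hM ((hb i).2.trans hHP)
        refine Finset.mem_erase.2 ⟨(hb i).1, Finset.mem_Icc.2 ?_⟩
        show -(M : ℤ) ≤ b i ∧ b i ≤ M
        omega
      · have := hcast hM ((hc i).1.trans hHP)
        refine Finset.mem_Icc.2 ?_
        show -(M : ℤ) ≤ c i ∧ c i ≤ M
        omega
      · refine mem_Rat1 (hc i).2.1 (Nat.le_floor ((hc i).2.2.trans hHQ))
    · exact hab
  refine ⟨hfin.subset hsub, ?_⟩
  have h1 : (({a : Fin n → ℚ | a ∈ {a : Fin n → ℚ | (∀ i, 0 < a i) ∧ Fails m κ lam a} ∧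
      H a ≤ 2 ^ k}.ncard : ℕ) : ℝ) ≤ ((Small (2 ^ k) T).ncard : ℝ) := by
    exact_mod_cast Set.ncard_le_ncard hsub hfin
  have h2 : (T.card : ℝ) ≤ (2 * P) ^ n * ((3 * P) ^ m * (Q ^ 2) ^ m) := by
    have h3 : T.card ≤ (2 * M) ^ n * ((2 * M + 1) ^ m * (L ^ 2) ^ m) := by
      refine card_image_le.trans ?_
      rw [card_product, card_product, h𝓑, h𝓒, h𝓓, Fintype.card_piFinset, Fintype.card_piFinset,
        Fintype.card_piFinset, Finset.prod_const, Finset.prod_const, Finset.prod_const,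
        Finset.card_univ, Finset.card_univ, Fintype.card_fin, Fintype.card_fin]
      have e1 : ((Finset.Icc (-(M : ℤ)) M).erase 0).card = 2 * M := by
        rw [Finset.card_erase_of_mem (Finset.mem_Icc.2 ⟨by omega, by omega⟩), Int.card_Icc]
        omega
      have e2 : (Finset.Icc (-(M : ℤ)) M).card = 2 * M + 1 := by
        rw [Int.card_Icc]
        omega
      rw [e1, e2]
      exact Nat.mul_le_mul_left _ (Nat.mul_le_mul_left _ (Nat.pow_le_pow_left (card_Rat1 L) m))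
    have h4 : (T.card : ℝ) ≤ (2 * (M : ℝ)) ^ n * ((2 * (M : ℝ) + 1) ^ m * ((L : ℝ) ^ 2) ^ m) := by
      exact_mod_cast h3
    refine h4.trans ?_
    gcongr
    linarith
  refine h1.trans (hcard.trans ?_)
  push_cast
  have h5 : (((2 : ℝ) ^ k) ^ (1 + ε)) = (2 : ℝ) ^ ((k : ℝ) * (1 + ε)) := by
    rw [← Real.rpow_natCast, ← Real.rpow_mul (by norm_num)]
  have hPe : P = (2 : ℝ) ^ ((k : ℝ) * κ) := by
    rw [hP, ← Real.rpow_natCast, ← Real.rpow_mul (by norm_num)]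
  have hQe : Q = (2 : ℝ) ^ ((k : ℝ) * lam) := by
    rw [hQ, ← Real.rpow_natCast, ← Real.rpow_mul (by norm_num)]
  have h6 : (2 * P) ^ n * ((3 * P) ^ m * (Q ^ 2) ^ m) =
      2 ^ n * 3 ^ m * (2 : ℝ) ^ ((k : ℝ) * ((n + m) * κ + 2 * m * lam)) := by
    have e1 : P ^ n = (2 : ℝ) ^ ((k : ℝ) * (n * κ)) := by
      rw [hPe, ← Real.rpow_natCast, ← Real.rpow_mul (by norm_num)]
      congr 1
      ring
    have e2 : P ^ m = (2 : ℝ) ^ ((k : ℝ) * (m * κ)) := by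
      rw [hPe, ← Real.rpow_natCast, ← Real.rpow_mul (by norm_num)]
      congr 1
      ring
    have e3 : (Q ^ 2) ^ m = (2 : ℝ) ^ ((k : ℝ) * (2 * m * lam)) := by
      rw [hQe, ← pow_mul, ← Real.rpow_natCast, ← Real.rpow_mul (by norm_num)]
      congr 1
      push_cast
      ring
    rw [mul_pow, mul_pow, e1, e2, e3]
    have e4 : (k : ℝ) * ((n + m) * κ + 2 * m * lam) =
      (k : ℝ) * (n * κ) + ((k : ℝ) * (m * κ) + (k : ℝ) * (2 * m * lam)) := by ring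
    rw [e4, Real.rpow_add (by norm_num), Real.rpow_add (by norm_num)]
    ring
  rw [h6] at h2
  rw [h5]
  calc C * (T.card : ℝ) * (2 : ℝ) ^ ((k : ℝ) * (1 + ε))
      ≤ C * (2 ^ n * 3 ^ m * (2 : ℝ) ^ ((k : ℝ) * ((n + m) * κ + 2 * m * lam))) *
        (2 : ℝ) ^ ((k : ℝ) * (1 + ε)) := by gcongr
    _ = C * (2 ^ n * 3 ^ m) * (2 : ℝ) ^ ((k : ℝ) * (1 + (n + m) * κ + 2 * m * lam + ε)) := by
        have e : (k : ℝ) * (1 + (n + m) * κ + 2 * m * lam + ε) =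
          (k : ℝ) * ((n + m) * κ + 2 * m * lam) + (k : ℝ) * (1 + ε) := by ring
        rw [e, Real.rpow_add (by norm_num)]
        ring

end Pool.Agent.Q10.TC
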